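import Pool.Agent.P8H19.AO.Near
import Pool.Agent.P8H19.AO.Num2
import Pool.Agent.P8H4.AO.Core
import Pool.Agent.P8H4.AO.Pf
import Pool.Agent.P8H23.AO.Geo
import Pool.Agent.P8H23.AO.Num
import Pool.Agent.P8H65.AO.Chr
import Pool.Agent.P8H65.AO.Typ
import Pool.Agent.P8H65.AO.Pair
import Pool.Agent.P8H65.AO.Blk

/-!
# Spherical codes and kissing configurations near orbits of abelian groups

`TorusBound s δ b`: for large `m`, unit vectors `X` of `ℂᵐ` with mutual real inner products `≤ s`,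
each within `δ` of one of `N` tori `|yᵢ| = rᵢ` of the unit sphere, are at most `N * 2 ^ (b m)`.

`OrbitBound s δ b`: for large `n`, unit vectors `X` of `ℝⁿ` with mutual inner products `≤ s`, each
within `δ` of `A v` for one of `N` pairs of a set `A` of commuting linear isometries and a unit
vector `v`, are at most `N * 2 ^ (b n)`.

THEOREM. Let `p` be a probability distribution of finite support on `ℤ`. If `s + 2 δ` is less than
`∑ √(p j * p (j + 1))` and `b` is larger than the entropy (in bits), then `TorusBound s δ b` and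
`OrbitBound s δ (b / 2)` hold. So kissing configurations (`s = 1 / 2`) in `N` such orbits (or within
`1 / 4000` of them) have at most `N * 2 ^ (0.366 n)` points, and within `1 / 100` of them at most
`N * 2 ^ (0.39 n)`.

Proof. Commuting isometries act on `v` through orthogonal blocks of dimension one and two, so each
orbit lies on a torus of dimension at most `(n + 1) / 2` with weights; on the torus, Delsarte's linear
programming bound is applied to the function `(K - s) |F| ^ 2`, where the Fourier coefficients of `F`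
are the Perron vector of the multiplication by `K = ∑ aᵢ cos θᵢ` on the typical set of the
distribution `p ⊗ ... ⊗ p`; the spectral radius is at least the affinity, whatever the weights are.
(With helper4: CORE, PF; helper23: NUM, GEO; helper65: CHR, TYP, PAIR, BLK.)
-/

set_option autoImplicit false

open Finset

namespace Pool.Agent.Results.MP_b5f63d_co.AbelianOrbits

/-- codes near `N` tori of the unit sphere of `ℂ ^ m` -/
def TorusBound (s δ b : ℝ) : Prop :=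
  ∃ m₀ : ℕ, ∀ m : ℕ, m₀ ≤ m → ∀ X : Finset (EuclideanSpace ℂ (Fin m)), (∀ x ∈ X, ‖x‖ = 1) →
    (∀ x ∈ X, ∀ y ∈ X, x ≠ y → (inner ℂ x y).re ≤ s) →
    ∀ (N : ℕ) (r : Fin N → Fin m → ℝ), (∀ j, ∑ i, r j i ^ 2 = 1) →
      (∀ x ∈ X, ∃ j, ∃ y : EuclideanSpace ℂ (Fin m), (∀ i, ‖y i‖ = r j i) ∧ ‖x - y‖ ≤ δ) →
      (X.card : ℝ) ≤ N * (2 : ℝ) ^ (b * m)

/-- codes near `N` orbits of sets of commuting isometries of `ℝ ^ n` -/
def OrbitBound (s δ b : ℝ) : Prop :=
  ∃ n₀ : ℕ, ∀ n : ℕ, n₀ ≤ n → ∀ X : Finset (EuclideanSpace ℝ (Fin n)), (∀ x ∈ X, ‖x‖ = 1) →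
    (∀ x ∈ X, ∀ y ∈ X, x ≠ y → inner ℝ x y ≤ s) →
    ∀ (N : ℕ) (A : Fin N → Set (EuclideanSpace ℝ (Fin n) ≃ₗᵢ[ℝ] EuclideanSpace ℝ (Fin n)))
      (v : Fin N → EuclideanSpace ℝ (Fin n)),
      (∀ j, ∀ f ∈ A j, ∀ g ∈ A j, ∀ x, f (g x) = g (f x)) → (∀ j, ‖v j‖ = 1) →
      (∀ x ∈ X, ∃ j, ∃ g ∈ A j, ‖x - g (v j)‖ ≤ δ) →
      (X.card : ℝ) ≤ N * (2 : ℝ) ^ (b * n)

open P8H19.AO in
theorem bounds (D : Finset ℤ) (p : ℤ → ℝ) (s δ b : ℝ) (hD : Dist D p) (hs : s + 2 * δ < aff D p)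
    (hb : ent D p < b * Real.log 2) : TorusBound s δ b ∧ OrbitBound s δ (b / 2) := by
  obtain ⟨⟨m₀, h1⟩, n₀, h2⟩ := generalNear P8H4.AO.t_CORE P8H4.AO.t_PF P8H65.AO.t_CHR
    P8H65.AO.t_TYP P8H65.AO.t_BLK P8H65.AO.t_PAIR P8H23.AO.t_GEO D p s δ (b * Real.log 2) hD hs hb
  have e1 : ∀ m : ℕ, Real.exp (m * (b * Real.log 2)) = (2 : ℝ) ^ (b * m) := fun m => by
    rw [Real.rpow_def_of_pos (by norm_num)]
    congr 1
    ring
  have e2 : ∀ n : ℕ, Real.exp (n * (b * Real.log 2) / 2) = (2 : ℝ) ^ (b / 2 * n) := fun n => by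
    rw [Real.rpow_def_of_pos (by norm_num)]
    congr 1
    ring
  simp only [e1] at h1
  simp only [e2] at h2
  exact ⟨⟨m₀, h1⟩, n₀, h2⟩

theorem result :
    (∀ (D : Finset ℤ) (p : ℤ → ℝ) (s δ b : ℝ), (∀ j ∈ D, 0 < p j) → (∀ j, j ∉ D → p j = 0) →
      ∑ j ∈ D, p j = 1 → s + 2 * δ < ∑ j ∈ D, √(p j * p (j + 1)) →
      - ∑ j ∈ D, p j * Real.logb 2 (p j) < b → TorusBound s δ b ∧ OrbitBound s δ (b / 2)) ∧
    (TorusBound (1 / 2) (1 / 4000) 0.732 ∧ OrbitBound (1 / 2) (1 / 4000) 0.366) ∧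
    (TorusBound (1 / 2) (1 / 100) 0.78 ∧ OrbitBound (1 / 2) (1 / 100) 0.39) := by
  have hlog := Real.log_pos (show (1 : ℝ) < 2 by norm_num)
  refine ⟨fun D p s δ b h1 h2 h3 h4 h5 => bounds D p s δ b ⟨h1, h2, h3⟩ h4 ?_, ?_, ?_⟩
  · have e : ∑ j ∈ D, p j * Real.logb 2 (p j) = (∑ j ∈ D, p j * Real.log (p j)) / Real.log 2 := by
      rw [Finset.sum_div]
      refine Finset.sum_congr rfl fun j _ => ?_
      rw [Real.logb, mul_div_assoc]
    rw [e, ← neg_div, div_lt_iff₀ hlog] at h5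
    exact h5
  · obtain ⟨hD, _, hh⟩ := P8H23.AO.t_NUM
    have h := bounds P8H19.AO.Dk P8H19.AO.pk (1 / 2) (1 / 4000) 0.732 hD
      (lt_trans (by norm_num) P8H19.AO.aff_pk) (by nlinarith)
    rwa [show (0.732 : ℝ) / 2 = 0.366 by norm_num] at h
  · have h := bounds P8H19.AO.Dk P8H19.AO.qk (1 / 2) (1 / 100) 0.78 P8H19.AO.dist_q
      P8H19.AO.aff_qk (lt_trans P8H19.AO.ent_qk (by nlinarith))
    rwa [show (0.78 : ℝ) / 2 = 0.39 by norm_num] at h

end Pool.Agent.Results.MP_b5f63d_co.AbelianOrbits
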