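import Pool.Agent.P8H41.PK.Main
import Pool.Agent.P8H41.PK.Tl
import Pool.Agent.P8H55.PK.Perm
import Pool.Agent.P8H59.PK.Match
import Pool.Agent.P8H61.PK.Band
import Pool.Agent.P8H61.PK.Lln
import Pool.Agent.P8H69.PK.Close
import Pool.Agent.P8H71.PK.Avg
import Pool.Agent.P8H75.PK.Rot
import Pool.Agent.P8H88.PK.Alph
import Pool.Agent.P8H88.PK.Ex

/-!
# The exponents of the kissing numbers are exponents of permutation codes (MP_b5f63d_co)

Let `A(n,θ)` (`sphMax n θ`) be the largest size of a spherical code in `ℝⁿ` with angular distance `θ`,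
and `τ(n) = A(n,π/3)` (`kissing n`). The problem asks for `c_-` and `c_+`, the lower and upper limits of
`log₂ τ(n) / n`.

For a vector `v` of `ℝⁿ`, `v ≠ 0`, and `-1 ≤ s < 1` let `permMax v s` be the largest size of a set
`A ⊆ S_n` of permutations such that
`∑ i, v (σ i) v (τ i) ≤ s ∑ i, v(i)²` for all `σ ≠ τ` in `A`. This is a purely combinatorial quantity,
the independence number of a Cayley graph of `S_n`: the condition depends on `σ⁻¹ τ` only.

**Theorem** (`result`, part 3). Let `g_n ∈ ℝⁿ` be vectors of Gaussian scores, that is, the empirical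
distribution of the coordinates of `g_n` tends to the standard normal distribution and their second
moment to `1` (part 2: such vectors exist). Then `log₂ permMax(g_n, 1/2) / n` has the same lower
limit `c_-` and the same upper limit `c_+` as `log₂ τ(n) / n`. So the problem is equivalent to one on
sets of permutations (rankings) with pairwise rank correlation at most `1/2`. In fact
`2^(-εn) A(n,θ) ≤ permMax(g_n, cos θ) ≤ A(n,θ)` for every `0 < θ < π/2`, `ε > 0` and all large `n`.

**Theorem** (part 4). Finite alphabets suffice up to `ε`: for all `0 < θ < π/2` and `ε > 0` there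
is `k` such that for all large `n` there is ONE vector `v` with coordinates in `{-k, …, k}` with
`2^(-εn) A(n,θ) ≤ permMax(v, cos θ) ≤ A(n,θ)`: constant composition codes over a fixed finite alphabet
(Slepian's permutation modulation) attain the exponents of all spherical codes within `ε`.

Both follow from a **transference principle** (part 1): for `0 < θ < π/2` and `ε > 0` there is
`δ > 0` such that for all large `n` EVERY set `Y` of unit vectors of `ℝⁿ` contains a code of angular
distance `θ` with at least `2^(-εn) μ(Y_δ) A(n,θ)` elements, where `μ(Y_δ)` (`frac Y δ`) is the normalised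
measure of the points of the sphere at distance less than `δ` from `Y`. (So codes can always be
moved, at no exponential cost, into a set whose `δ`-neighbourhoods are not exponentially small.)

Proof. (a) Continuity of the exponents from the right, `A(n,θ) ≤ 2^(εn) A(n,θ')` for some
`θ' > θ`: by averaging over the caps, a cap of radius slightly less than `π/2` contains at least
`2^(-εn) A(n,θ)` points of an optimal code, and such a set, cut into finitely many thin bands
orthogonal to the centre of the cap and projected along it, becomes a code with a larger angle.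
(b) By averaging over the rotations, `μ(Y_δ) A(n,θ')` points of a code of angle `θ'` can be rotated into
`Y_δ`; moving them to the nearest points of `Y` costs an angle less than `θ' - θ`.
(c) The `δ`-neighbourhood of the permutations of `g_n / |g_n|` has measure at least `1/2`: by the law
of large numbers the coordinates of a standard Gaussian vector have nearly the same distribution as
those of `g_n`, and sorting gives a permutation for which both vectors are close. The same holds for
a vector of integers close to a multiple of `g_n`.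

Authors: helpers 41, 53, 55 (PERM), 59 (MATCH), 61 (BAND, LLN), 69 (CLOSE), 71 (AVG),
75 (ROT), 88 (EX, ALPH).
-/

set_option autoImplicit false

open Filter Topology
open Pool.Agent.H818R2 Pool.Agent.P8H41.PK

namespace Pool.Agent.Results.MP_b5f63d_co.PermutationCodes

/-- **The exponents of the kissing numbers are exponents of permutation codes.** -/
theorem result :
    -- the transference principle
    (∀ θ ε : ℝ, 0 < θ → θ < Real.pi / 2 → 0 < ε → ∃ δ : ℝ, 0 < δ ∧ ∀ᶠ n : ℕ in atTop,
      ∀ Y : Set (EuclideanSpace ℝ (Fin n)), (∀ y ∈ Y, ‖y‖ = 1) →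
        (2 : ℝ) ^ (-ε * n) * (frac Y δ * sphMax n θ) ≤ codeIn Y θ) ∧
    -- Gaussian scores exist
    (∃ g : ∀ n : ℕ, Fin n → ℝ, Scores g) ∧
    -- permutations of any Gaussian scores attain the exponents
    (∀ g : ∀ n : ℕ, Fin n → ℝ, Scores g →
      (liminf (fun n : ℕ => Real.logb 2 (permMax (g n) (1 / 2)) / n) atTop =
          liminf (fun n : ℕ => Real.logb 2 (kissing n) / n) atTop ∧
        limsup (fun n : ℕ => Real.logb 2 (permMax (g n) (1 / 2)) / n) atTop =
          limsup (fun n : ℕ => Real.logb 2 (kissing n) / n) atTop) ∧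
      ∀ θ : ℝ, 0 < θ → θ < Real.pi / 2 →
        (liminf (fun n : ℕ => Real.logb 2 (permMax (g n) (Real.cos θ)) / n) atTop =
            liminf (fun n : ℕ => Real.logb 2 (sphMax n θ) / n) atTop ∧
          limsup (fun n : ℕ => Real.logb 2 (permMax (g n) (Real.cos θ)) / n) atTop =
            limsup (fun n : ℕ => Real.logb 2 (sphMax n θ) / n) atTop) ∧
        ∀ ε : ℝ, 0 < ε → ∀ᶠ n : ℕ in atTop,
          (2 : ℝ) ^ (-ε * n) * sphMax n θ ≤ permMax (g n) (Real.cos θ) ∧
            permMax (g n) (Real.cos θ) ≤ sphMax n θ) ∧
    -- one vector with coordinates in a fixed finite set of integers suffices up to `ε`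
    (∀ θ ε : ℝ, 0 < θ → θ < Real.pi / 2 → 0 < ε → ∃ k : ℕ, ∀ᶠ n : ℕ in atTop,
      ∃ v : Fin n → ℤ, (∀ i, |v i| ≤ k) ∧
        (2 : ℝ) ^ (-ε * n) * sphMax n θ ≤ permMax (fun i => (v i : ℝ)) (Real.cos θ) ∧
        permMax (fun i => (v i : ℝ)) (Real.cos θ) ≤ sphMax n θ) := by
  have hT : S_TRANS := trans (cont Pool.Agent.P8H71.PK.avg Pool.Agent.P8H61.PK.band)
    Pool.Agent.P8H75.PK.rot
  have hP := Pool.Agent.P8H55.PK.perm Pool.Agent.P8H61.PK.lln Pool.Agent.P8H59.PK.mtch
    Pool.Agent.P8H69.PK.close Tl.tail
  have hpi := Real.pi_pos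
  refine ⟨hT, Pool.Agent.P8H88.PK.ex, fun g hg => ⟨?_, fun θ hθ hθ2 =>
    ⟨exponents hT hP g hg θ hθ hθ2, fun ε hε => scores_rate hT hP g hg θ ε hθ hθ2 hε⟩⟩,
    fun θ ε hθ hθ2 hε => alph_rate hT hP Pool.Agent.P8H88.PK.ex
      (Pool.Agent.P8H88.PK.alph Tl.tail) θ ε hθ hθ2 hε⟩
  have h := exponents hT hP g hg (Real.pi / 3) (by linarith) (by linarith)
  rwa [Real.cos_pi_div_three] at h

end Pool.Agent.Results.MP_b5f63d_co.PermutationCodes
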