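import Pool.Agent.P8H92.KB.Cod
import Pool.Agent.P8H92.KB.Dis
import Pool.Agent.P8H53.KC.MinB
import Pool.Agent.P8H69.KC.Hoe
import Pool.Agent.P8H69.KC.Kld
import Pool.Agent.P8H65.KC.Bnd
import Pool.Agent.P8H65.KC.Qua
import Pool.Agent.P8H52.KC.Trf

/-!
# MP_b5f63d_co: random codes near a product law cannot improve Wyner's exponent

All lower bounds for the kissing numbers and for the spherical codes of angle `θ` in `ℝ^n` with the
exponential growth rate `(1 / sin θ)^n` (Shannon, Wyner; for `θ = π/3` the exponent `0.2075` of the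
problem) come from random points of the sphere: two independent uniform points have an angle less
than `θ` with probability `(sin θ)^(n (1 + o(1)))`, and random points with few close pairs are
expurgated. One may try to improve them by random vectors with many independent blocks of any laws and
dimensions (for instance random elements of optimal kissing configurations of `ℝ^24`, or random words
over a good alphabet), conditioned on any event which is not exponentially unlikely (words of a given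
composition, of a given length, after the removal of bad words), or of any other law which has small
relative entropy with respect to such a law. We show that this is impossible.

Let `P = ⊗ μ_i` be a law on `ℝ^n = ∏ ℝ^(k_i)` with independent blocks `X_i` of arbitrary laws with
`|X_i|² ≤ R_i`, and let `T = (E |X|²)² / ∑ R_i²` (the number of blocks, if all blocks have the same
length). For all `0 < θ < π/2` and `δ > 0` there is `ρ > 0`, depending on `θ` and `δ` only, such that, if
`T ≥ 1/ρ`: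

(1) For every law `Q` on `ℝ^n` with relative entropy `D(Q ‖ P) ≤ ρ T` two independent vectors of law
`Q` have an angle less than `θ` with probability at least `(sin θ)^((1+δ) n)`.

(2) If the `μ_i` are the uniform laws on finite sets `S_i`, then every spherical code of angle `θ`
which is a subset of `∏ S_i` with at least `exp (-ρ T) ∏ |S_i|` elements has at most
`(1 / sin θ)^((1+δ) n)` elements.

For instance `Q = P(· | D)` for an event with `P(D) ≥ exp (-ρ T)` in (1).

Proof. (a) For every probability `ν` on a finite set of points of `ℝ^k` with second moment `v`, every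
`l ≥ 0`, `0 ≤ a < 1` and every function `f`:
`E exp (l ⟨X, X'⟩ + f(X) + f(X')) ≥ exp (l a v + 2 E f(X)) (1-a²)^(k/2)` (Gaussian integral,
Cauchy-Schwarz with a Gaussian function, Jensen). (b) The minimum over all `f_i` and `l ≥ 0` of
`∑ (E exp (l ⟨X_i, X_i'⟩ + f_i(X_i) + f_i(X_i')) - 2 E f_i(X_i)) - l s v` gives couplings of the blocks
with themselves, with densities `exp (l ⟨x, y⟩ + f_i(x) + f_i(y))` with a common `l`, total mean inner
product at least `s v` and total relative entropy at most `-(n/2) log (1 - s²)`: the Gaussian vectors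
are the worst case; and `l ≤ C(s) n / v`, so the logarithms of the densities are at most
`4 C(s) R_i n / v`. (c) The product coupling has positive definite density, so it gives `d ⊗ d` at
least the mass `(∫ d)²` by the Cauchy-Schwarz inequality, for all `0 ≤ d ≤ 1`, while by Hoeffding's
inequality the angle is less than `θ` and the density is less than `(sin θ)^(-(1+δ) n)` outside of a
set of probability `exp (-c T)`. (d) Quantisation, and the truncation `d = min (dQ/dP / M) 1`.
-/

set_option autoImplicit false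

open MeasureTheory Real Finset

namespace Pool.Agent.Results.MP_b5f63d_co.RandomCodingBarrier

open Pool.Agent.P8H92.KB

/-- `T = (E |X|²)² / ∑ R_i²`, for a random vector with blocks of laws `μ i` and bounds `R i` of their
squared lengths. -/
noncomputable def blockNumber {ι : Type} [Fintype ι] {k : ι → ℕ}
    (μ : ∀ i, Measure (EuclideanSpace ℝ (Fin (k i)))) (R : ι → ℝ) : ℝ :=
  (∑ i, ∫ x, ‖x‖ ^ 2 ∂(μ i)) ^ 2 / ∑ i, R i ^ 2

/-- The same number for the uniform laws on finite sets `S i`. -/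
noncomputable def blockNumberOf {ι : Type} [Fintype ι] {k : ι → ℕ}
    (S : ∀ i, Finset (EuclideanSpace ℝ (Fin (k i)))) (R : ι → ℝ) : ℝ :=
  (∑ i, (∑ x ∈ S i, ‖x‖ ^ 2) / (S i).card) ^ 2 / ∑ i, R i ^ 2

theorem dis' : S_DIS :=
  dis (Pool.Agent.P8H53.KC.minB ker) Pool.Agent.P8H65.KC.bnd Pool.Agent.P8H69.KC.hoe

theorem measurable_smallAng {ι : Type} [Fintype ι] {k : ι → ℕ} (θ : ℝ) :
    MeasurableSet {p : (∀ i, EuclideanSpace ℝ (Fin (k i))) ×
      (∀ i, EuclideanSpace ℝ (Fin (k i))) | SmallAng θ p.1 p.2} := by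
  unfold SmallAng
  refine measurableSet_lt (Continuous.measurable ?_) (Continuous.measurable ?_)
  · fun_prop
  · fun_prop

/-- **Random codes near a product law cannot improve Wyner's exponent.** -/
theorem result (θ δ : ℝ) (h0 : 0 < θ) (h1 : θ < π / 2) (hδ : 0 < δ) : ∃ ρ : ℝ, 0 < ρ ∧
    (∀ (ι : Type) [Fintype ι] (k : ι → ℕ) (μ : ∀ i, Measure (EuclideanSpace ℝ (Fin (k i))))
      [∀ i, IsProbabilityMeasure (μ i)] (R : ι → ℝ), (∀ i, ∀ᵐ x ∂(μ i), ‖x‖ ^ 2 ≤ R i) →
      1 ≤ ρ * blockNumber μ R →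
      ∀ (Q : Measure (∀ i, EuclideanSpace ℝ (Fin (k i)))) [IsProbabilityMeasure Q],
      InformationTheory.klDiv Q (Measure.pi μ) ≤ ENNReal.ofReal (ρ * blockNumber μ R) →
      Real.sin θ ^ ((1 + δ) * ((∑ i, k i : ℕ) : ℝ)) ≤
        (Q.prod Q).real {p | SmallAng θ p.1 p.2}) ∧
    (∀ (ι : Type) [Fintype ι] [DecidableEq ι] (k : ι → ℕ)
      (S : ∀ i, Finset (EuclideanSpace ℝ (Fin (k i)))) (R : ι → ℝ), (∀ i, (S i).Nonempty) →
      (∀ i, ∀ x ∈ S i, ‖x‖ ^ 2 ≤ R i) → 1 ≤ ρ * blockNumberOf S R →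
      ∀ C : Finset (∀ i, EuclideanSpace ℝ (Fin (k i))), C ⊆ Fintype.piFinset S →
      (∀ x ∈ C, ∀ y ∈ C, x ≠ y → ¬ SmallAng θ x y) →
      rexp (-(ρ * blockNumberOf S R)) * (Fintype.piFinset S).card ≤ C.card →
      (C.card : ℝ) ≤ (1 / Real.sin θ) ^ ((1 + δ) * ((∑ i, k i : ℕ) : ℝ))) := by
  obtain ⟨ρ1, hρ1, hF⟩ := Pool.Agent.P8H52.KC.trf dis' Pool.Agent.P8H65.KC.qua θ δ h0 h1 hδ
  obtain ⟨ρ2, hρ2, hC⟩ := cod dis' θ δ h0 h1 hδ
  have hsin0 : 0 < Real.sin θ := Real.sin_pos_of_pos_of_lt_pi h0 (by linarith [Real.pi_pos])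
  obtain ⟨ρ, hρ⟩ : ∃ ρ, ρ = min (ρ1 / 6) ρ2 := ⟨_, rfl⟩
  have hρ0 : 0 < ρ := by rw [hρ]; exact lt_min (by positivity) hρ2
  have hρa : ρ ≤ ρ1 / 6 := by rw [hρ]; exact min_le_left _ _
  have hρb : ρ ≤ ρ2 := by rw [hρ]; exact min_le_right _ _
  -- the common facts
  have hfact : ∀ v S : ℝ, 0 ≤ v → 0 ≤ S → 1 ≤ ρ * (v ^ 2 / S) → 0 < v ∧ 0 < S ∧ S ≤ ρ * v ^ 2 := by
    intro v S hv hS h
    have hS0 : 0 < S := by
      rcases hS.eq_or_lt with h2 | h2
      · rw [← h2, div_zero, mul_zero] at h
        exact absurd h (by norm_num)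
      · exact h2
    have hv0 : 0 < v := by
      rcases hv.eq_or_lt with h2 | h2
      · rw [← h2] at h
        simp at h
        exact absurd h (by norm_num)
      · exact h2
    refine ⟨hv0, hS0, ?_⟩
    rw [← mul_div_assoc, le_div_iff₀ hS0, one_mul] at h
    exact h
  refine ⟨ρ, hρ0, ?_, ?_⟩
  · intro ι _ k μ _ R hR hT Q _ hQ
    have hv : 0 ≤ ∑ i, ∫ x, ‖x‖ ^ 2 ∂(μ i) :=
      Finset.sum_nonneg fun i _ => integral_nonneg fun x => sq_nonneg _
    have hS : 0 ≤ ∑ i, R i ^ 2 := Finset.sum_nonneg fun i _ => sq_nonneg _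
    unfold blockNumber at hT hQ
    obtain ⟨hv0, hS0, hle⟩ := hfact _ _ hv hS hT
    obtain ⟨T, hTd⟩ : ∃ T, T = (∑ i, ∫ x, ‖x‖ ^ 2 ∂(μ i)) ^ 2 / ∑ i, R i ^ 2 := ⟨_, rfl⟩
    rw [← hTd] at hT hQ
    have hT0 : 0 < T := by rw [hTd]; positivity
    have hT1 : ρ * T ≤ ρ1 / 6 * T := mul_le_mul_of_nonneg_right hρa hT0.le
    obtain ⟨d, hd, hd0, hd1, hmass, hB⟩ := Pool.Agent.P8H69.KC.kld _ (Measure.pi μ) Q (ρ * T)
      (by positivity) hQ
    have key := hF ι k μ R hR hv0 (hle.trans (by
        have : ρ ≤ ρ1 := by linarith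
        gcongr)) d hd hd0 hd1 (by
        rw [← hTd]
        refine le_trans (Real.exp_le_exp.2 ?_) hmass
        linarith)
    exact key.trans (hB _ (measurable_smallAng θ))
  · intro ι _ _ k S R hne hR hT C hCS hCC hcard
    have hv : 0 ≤ ∑ i, (∑ x ∈ S i, ‖x‖ ^ 2) / (S i).card :=
      Finset.sum_nonneg fun i _ => div_nonneg (Finset.sum_nonneg fun x _ => sq_nonneg _)
        (Nat.cast_nonneg _)
    have hS : 0 ≤ ∑ i, R i ^ 2 := Finset.sum_nonneg fun i _ => sq_nonneg _
    unfold blockNumberOf at hT hcard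
    obtain ⟨hv0, hS0, hle⟩ := hfact _ _ hv hS hT
    rw [one_div, Real.inv_rpow hsin0.le, ← Real.rpow_neg hsin0.le]
    refine hC ι k S R hne hR hv0 (hle.trans (by gcongr)) C hCS hCC (le_trans ?_ hcard)
    gcongr

end Pool.Agent.Results.MP_b5f63d_co.RandomCodingBarrier
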