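import Pool.Agent.P8H66.KSum.Fin
import Pool.Agent.P8H66.KSum.Typ

/-!
# MP_b5f63d_co: kissing configurations expand every finite subset of the unit ball

Let `X` be a kissing configuration of `ℝ^n` (a finite set of unit vectors with mutual inner
products at most `1 / 2`). For every finite subset `B` of a closed ball of radius `1` the addition
map `X × B → X + B` is nearly injective: `|X + B| ≥ exp (- η n) |X| |B|` for every `η > 0` and all
large `n`, uniformly in `X` and `B`. In particular `|X + a Y| ≥ exp (- η n) |X| |Y|` for all kissing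
configurations `X`, `Y` and all real `a ≠ 0`. So the exponential growth rate of the kissing
configurations which do not expand some finite subset of a unit ball (for instance, those with
`|X + X| ≤ |X|^(2-δ)` or `|X - X| ≤ |X|^(2-δ)`) is `0`. For balls of radius smaller than `1` the loss
is a constant, for larger balls it is the size of a smaller spherical code, for `B = a X` with
`a > 0` it is at most `2 n`; all finite sets are expanded by large configurations.
-/

open Filter Topology
open scoped Pointwise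

namespace Pool.Agent.Results.MP_b5f63d_co.SumsetsOfKissing

/-- `C` is a kissing configuration: unit vectors of `ℝ^n`, any two distinct ones at angular
distance at least `π / 3`. -/
def IsKissing {n : ℕ} (C : Finset (EuclideanSpace ℝ (Fin n))) : Prop :=
  (∀ x ∈ C, ‖x‖ = 1) ∧ ∀ x ∈ C, ∀ y ∈ C, x ≠ y → inner ℝ x y ≤ 1 / 2

open Classical in
/-- `X` does not expand (with exponent `δ`) some set in a ball of radius one:
`|X + B| ≤ |X|^(1-δ) |B|` for a nonempty finite subset `B` of a closed ball of radius `1` of `ℝ^n`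
(for instance `B = X` or `B = -X`). -/
def NonExpanding {n : ℕ} (δ : ℝ) (X : Finset (EuclideanSpace ℝ (Fin n))) : Prop :=
  ∃ (B : Finset (EuclideanSpace ℝ (Fin n))) (b : EuclideanSpace ℝ (Fin n)), B.Nonempty ∧
    (∀ y ∈ B, ‖y - b‖ ≤ 1) ∧ ((X + B).card : ℝ) ≤ (X.card : ℝ) ^ (1 - δ) * B.card

/-- The largest number of points of a kissing configuration of `ℝ^n` which is `NonExpanding δ`. -/
noncomputable def maxNonExpanding (n : ℕ) (δ : ℝ) : ℕ :=
  sSup {k | ∃ X : Finset (EuclideanSpace ℝ (Fin n)), IsKissing X ∧ NonExpanding δ X ∧ X.card = k}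

/-- The largest number of unit vectors of `ℝ^n` with mutual inner products at most `s`. -/
noncomputable def codeMax (n : ℕ) (s : ℝ) : ℕ :=
  sSup {k | ∃ C : Finset (EuclideanSpace ℝ (Fin n)), (∀ x ∈ C, ‖x‖ = 1) ∧
    (∀ x ∈ C, ∀ y ∈ C, x ≠ y → inner ℝ x y ≤ s) ∧ C.card = k}

open Classical in
lemma nonExp_le {δ η : ℝ} (hδ : 0 < δ) (hη : 0 < η) :
    ∀ᶠ n : ℕ in atTop, (maxNonExpanding n δ : ℝ) ≤ Real.exp (η * n) := by
  filter_upwards [Pool.Agent.P8H66.KSum.asym2 (η := η * δ) (by positivity)] with n hn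
  set S := {k | ∃ X : Finset (EuclideanSpace ℝ (Fin n)), IsKissing X ∧ NonExpanding δ X ∧
    X.card = k} with hS
  have hle : ∀ k ∈ S, (k : ℝ) ≤ Real.exp (η * n) := by
    rintro k ⟨X, hX, ⟨Y, b, hYn, hY, hXY⟩, rfl⟩
    rcases Nat.eq_zero_or_pos X.card with h0 | h0
    · rw [h0]
      simpa using (Real.exp_pos _).le
    have h0' : (0 : ℝ) < X.card := by exact_mod_cast h0
    have hY0 : (0 : ℝ) < Y.card := by exact_mod_cast hYn.card_pos
    have h1 := hn X Y (X + Y) b (fun x hx => (hX.1 x hx).le) hY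
      (Pool.Agent.P8H66.KSum.sep_of hX.1 hX.2) (fun x hx y hy => Finset.add_mem_add hx hy)
    have h2 : (X.card : ℝ) * Y.card ≤
        Real.exp (η * δ * n) * ((X.card : ℝ) ^ (1 - δ)) * Y.card := by
      refine h1.trans ?_
      have := mul_le_mul_of_nonneg_left hXY (Real.exp_pos (η * δ * n)).le
      linarith
    have h3 := le_of_mul_le_mul_right h2 hY0
    have h4 : (X.card : ℝ) ^ δ * (X.card : ℝ) ^ (1 - δ) = X.card := by
      rw [← Real.rpow_add h0']
      simp
    have h5 : (0 : ℝ) < (X.card : ℝ) ^ (1 - δ) := Real.rpow_pos_of_pos h0' _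
    have h6 : (X.card : ℝ) ^ δ ≤ Real.exp (η * δ * n) := by
      apply le_of_mul_le_mul_right _ h5
      rw [h4]
      exact h3
    have h7 := Real.rpow_le_rpow (by positivity) h6 (z := 1 / δ) (by positivity)
    rw [← Real.rpow_mul h0'.le, ← Real.exp_mul, mul_one_div_cancel hδ.ne', Real.rpow_one] at h7
    refine h7.trans (le_of_eq ?_)
    congr 1
    field_simp
  rcases S.eq_empty_or_nonempty with h | h
  · have : maxNonExpanding n δ = 0 := by
      unfold maxNonExpanding
      rw [← hS, h]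
      simp
    rw [this]
    simpa using (Real.exp_pos _).le
  · have hb : BddAbove S := by
      refine ⟨⌈Real.exp (η * n)⌉₊, fun k hk => ?_⟩
      exact_mod_cast (hle k hk).trans (Nat.le_ceil _)
    exact hle _ (Nat.sSup_mem h hb)

open Classical in
lemma card_smul {n : ℕ} {a : ℝ} (ha : a ≠ 0) (Y : Finset (EuclideanSpace ℝ (Fin n))) :
    (a • Y).card = Y.card :=
  Finset.card_image_of_injective _ (smul_right_injective _ ha)

open Classical in
lemma two_kissing {η : ℝ} (hη : 0 < η) : ∀ᶠ n : ℕ in atTop,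
    ∀ (X Y : Finset (EuclideanSpace ℝ (Fin n))) (a : ℝ), IsKissing X → IsKissing Y → a ≠ 0 →
      (X.card * Y.card : ℝ) ≤ Real.exp (η * n) * (X + a • Y).card := by
  filter_upwards [Pool.Agent.P8H66.KSum.asym2 hη] with n hn X Y a hX hY ha
  have key : ∀ (X Y : Finset (EuclideanSpace ℝ (Fin n))) (a : ℝ), IsKissing X → IsKissing Y →
      |a| ≤ 1 → a ≠ 0 → (X.card * Y.card : ℝ) ≤ Real.exp (η * n) * (X + a • Y).card := by
    intro X Y a hX hY ha1 ha
    have h1 := hn X (a • Y) (X + a • Y) 0 (fun x hx => (hX.1 x hx).le) (by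
      intro y hy
      obtain ⟨z, hz, rfl⟩ := Finset.mem_smul_finset.1 hy
      rw [sub_zero, norm_smul, hY.1 z hz, mul_one]
      exact ha1)
      (Pool.Agent.P8H66.KSum.sep_of hX.1 hX.2) (fun x hx y hy => Finset.add_mem_add hx hy)
    rwa [card_smul ha] at h1
  rcases le_total |a| 1 with h | h
  · exact key X Y a hX hY h ha
  · have h1 := key Y X a⁻¹ hY hX (by rw [abs_inv]; exact inv_le_one_of_one_le₀ h) (inv_ne_zero ha)
    have h2 : (Y + a⁻¹ • X).card = (X + a • Y).card := by
      rw [← card_smul ha (Y + a⁻¹ • X), smul_add, smul_smul, mul_inv_cancel₀ ha,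
        one_smul, add_comm]
    rw [h2] at h1
    linarith

open Classical in
theorem result :
    -- arbitrary finite subsets of a ball of radius one: addition is nearly injective
    (∀ η : ℝ, 0 < η → ∀ᶠ n : ℕ in atTop,
      ∀ (X B : Finset (EuclideanSpace ℝ (Fin n))) (b : EuclideanSpace ℝ (Fin n)), IsKissing X →
        (∀ y ∈ B, ‖y - b‖ ≤ 1) → Real.exp (-η * n) * (X.card * B.card) ≤ (X + B).card) ∧
    -- two kissing configurations: sums, differences, dilations
    (∀ η : ℝ, 0 < η → ∀ᶠ n : ℕ in atTop,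
      ∀ (X Y : Finset (EuclideanSpace ℝ (Fin n))) (a : ℝ), IsKissing X → IsKissing Y → a ≠ 0 →
        Real.exp (-η * n) * (X.card * Y.card) ≤ (X + a • Y).card) ∧
    -- the growth rate of the nonexpanding kissing configurations is zero
    (∀ δ : ℝ, 0 < δ →
      Tendsto (fun n : ℕ => Real.logb 2 (maxNonExpanding n δ) / n) atTop (𝓝 0)) ∧
    -- balls of radius smaller than one: a constant loss, in every dimension
    (∀ r : ℝ, 0 < r → r < 1 → ∃ c : ℝ, 0 < c ∧ ∀ (n : ℕ)
      (X B : Finset (EuclideanSpace ℝ (Fin n))) (b : EuclideanSpace ℝ (Fin n)), IsKissing X →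
        (∀ y ∈ B, ‖y - b‖ ≤ r) → c * (X.card * B.card) ≤ (X + B).card) ∧
    -- all radii and all separations
    (∀ σ R ε : ℝ, 0 < σ → 0 < R → 0 < ε → ε < σ * (1 + R ^ 2) / (2 * R ^ 2) → ∃ K : ℝ, 0 < K ∧
      ∀ (n : ℕ) (X B : Finset (EuclideanSpace ℝ (Fin n))) (b : EuclideanSpace ℝ (Fin n)),
        (∀ x ∈ X, ‖x‖ ≤ 1) → (∀ x ∈ X, ∀ y ∈ X, x ≠ y → σ ≤ ‖x - y‖ ^ 2) →
        (∀ y ∈ B, ‖y - b‖ ≤ R) → (X.card * B.card : ℝ) ≤
          K * codeMax (n + 1) (1 - σ * (1 + R ^ 2) / (2 * R ^ 2) + ε) * (X + B).card) ∧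
    -- explicit inequalities, in every dimension
    (∀ (n : ℕ) (X Y : Finset (EuclideanSpace ℝ (Fin n))) (a : ℝ), IsKissing X → IsKissing Y →
      (a ≠ 0 → X.card * Y.card ≤ 2 * n * ((X + a • Y).card + (X + (-a) • Y).card)) ∧
      (0 < a → X.card ^ 2 ≤ 2 * n * (X + a • X).card)) ∧
    -- expansion of arbitrary finite sets
    (∀ᶠ n : ℕ in atTop, ∀ X B : Finset (EuclideanSpace ℝ (Fin n)), IsKissing X →
      1 / 2 * min ((X.card : ℝ) * B.card)
        ((2 : ℝ) ^ (-(397 / 2000 * n) : ℝ) * (X.card : ℝ) ^ 2) ≤ (X + B).card) := by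
  refine ⟨?_, ?_, ?_, ?_, ?_, ?_, ?_⟩
  · intro η hη
    filter_upwards [Pool.Agent.P8H66.KSum.asym2 hη] with n hn X B b hX hB
    have h1 := hn X B (X + B) b (fun x hx => (hX.1 x hx).le) hB
      (Pool.Agent.P8H66.KSum.sep_of hX.1 hX.2) (fun x hx y hy => Finset.add_mem_add hx hy)
    rw [neg_mul, Real.exp_neg, inv_mul_le_iff₀ (Real.exp_pos _)]
    exact h1
  · intro η hη
    filter_upwards [two_kissing hη] with n hn X Y a hX hY ha
    rw [neg_mul, Real.exp_neg, inv_mul_le_iff₀ (Real.exp_pos _)]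
    exact hn X Y a hX hY ha
  · intro δ hδ
    rw [Metric.tendsto_nhds]
    intro e he
    filter_upwards [nonExp_le hδ (η := e / 2 * Real.log 2)
      (by have := Real.log_pos one_lt_two; positivity), eventually_gt_atTop 0] with n hn hn0
    have hn0' : (0 : ℝ) < n := by exact_mod_cast hn0
    have hl2 : 0 < Real.log 2 := Real.log_pos one_lt_two
    have h1 : 0 ≤ Real.logb 2 (maxNonExpanding n δ : ℝ) :=
      div_nonneg (Real.log_natCast_nonneg _) hl2.le
    rw [Real.dist_eq, sub_zero, abs_of_nonneg (by positivity), div_lt_iff₀ hn0']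
    rcases Nat.eq_zero_or_pos (maxNonExpanding n δ) with h0 | h0
    · rw [h0]
      simp only [Nat.cast_zero, Real.logb_zero]
      positivity
    · have h0' : (0 : ℝ) < maxNonExpanding n δ := by exact_mod_cast h0
      have h2 := Real.log_le_log h0' hn
      rw [Real.log_exp] at h2
      rw [Real.logb, div_lt_iff₀ hl2]
      have : 0 < e * n * Real.log 2 := by positivity
      nlinarith
  · intro r hr hr1
    obtain ⟨K, hK, h⟩ := Pool.Agent.P8H66.KSum.const_loss hr hr1
    refine ⟨K⁻¹, by positivity, fun n X B b hX hB => ?_⟩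
    rw [inv_mul_le_iff₀ hK]
    exact h n X B (X + B) b (fun x hx => (hX.1 x hx).le) hB
      (Pool.Agent.P8H66.KSum.sep_of hX.1 hX.2) (fun x hx y hy => Finset.add_mem_add hx hy)
  · intro σ R ε hσ hR hε hlt
    obtain ⟨K, hK, h⟩ := Pool.Agent.P8H66.KSum.main2_gen hσ hR hε hlt
    exact ⟨K, hK, fun n X B b hX hsep hB => h n X B (X + B) b hX hB hsep
      (fun x hx y hy => Finset.add_mem_add hx hy)⟩
  · intro n X Y a hX hY
    refine ⟨fun ha => ?_, fun ha => ?_⟩
    · exact Pool.Agent.P8H66.KSum.sum_diff ha hX.1 hY.1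
        (Pool.Agent.P8H66.KSum.sep_of hX.1 hX.2) (Pool.Agent.P8H66.KSum.sep_of hY.1 hY.2)
        (fun x hx y hy => Finset.add_mem_add hx (Finset.smul_mem_smul_finset hy))
        (fun x hx y hy => by
          have := Finset.add_mem_add hx (Finset.smul_mem_smul_finset (a := -a) hy)
          rwa [neg_smul, ← sub_eq_add_neg] at this)
    · have := Pool.Agent.P8H66.KSum.self_le (Z := X + a • X) ha hX.1 hX.2
        (fun x hx y hy => Finset.add_mem_add hx (Finset.smul_mem_smul_finset hy))
      exact_mod_cast this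
  · filter_upwards [Pool.Agent.P8H66.KSum.expand_num] with n hn X B hX
    exact hn X B (fun x hx => (hX.1 x hx).le) (Pool.Agent.P8H66.KSum.sep_of hX.1 hX.2)

end Pool.Agent.Results.MP_b5f63d_co.SumsetsOfKissing
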